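import Pool.Agent.Lib.H8.Pool2

/-!
Every oracle can be replaced by finite conditions with logarithmic precision.
-/

namespace Pool.Agent.Results.MP_d04dff_lc.Yes

open Pool.Agent.Lib.H8 Arith CList Wei Qm Rnd Kc Om Gen Low Pl

/-- The oracle given by a binary sequence. -/
def ora (X : ℕ → Bool) : Set (ℕ →. ℕ) := {fun n => Part.some (X n).toNat}

/-- The length of a shortest description of `s`. -/
noncomputable def C (M : List Bool →. List Bool) (s : List Bool) : ℕ :=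
  sInf {m : ℕ | ∃ p : List Bool, p.length = m ∧ s ∈ M p}

/-- An optimal conditional decompressor. -/
def OptCond (U : List Bool → List Bool →. List Bool) : Prop :=
  Partrec₂ U ∧ ∀ M : List Bool → List Bool →. List Bool, Partrec₂ M →
    ∃ c : ℕ, ∀ p y s, s ∈ M p y → ∃ q : List Bool, q.length ≤ p.length + c ∧ s ∈ U q y

/-- An optimal decompressor relative to an oracle. -/
def OptOra (X : ℕ → Bool) (O : List Bool →. List Bool) : Prop :=
  RecursiveIn (ora X) O ∧ ∀ M : List Bool →. List Bool, RecursiveIn (ora X) M →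
    ∃ c : ℕ, ∀ p s, s ∈ M p → ∃ q : List Bool, q.length ≤ p.length + c ∧ s ∈ O q

theorem result (U : List Bool → List Bool →. List Bool) (hU : OptCond U) (X : ℕ → Bool)
    (O : List Bool →. List Bool) (hO : OptOra X O) :
    ∃ (c : ℕ) (x : ℕ → List Bool), ∀ n : ℕ, 1 ≤ n → ∀ s : List Bool, s.length ≤ n →
      |(C (fun p => U p (x n)) s : ℝ) - C O s| ≤ c * Real.logb 2 n + c := by
  have f := @Computable.fst
  have s := @Computable.snd
  obtain ⟨c0, h0⟩ := hO.2 _ RecursiveIn.some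
  obtain ⟨c1, h1⟩ := hU.2 (fun p _ => Part.some p) (f (β := List Bool)).partrec
  obtain ⟨G, g, eG⟩ := op_of_rec' hO.1
  obtain ⟨lab, lc, ll⟩ : ∃ lab : ℕ → List Bool, Computable lab ∧ ∀ n, (lab n).length = n :=
    ⟨_, bits_c (Computable.const 0) Computable.id, fun n => pr_len _ n⟩
  obtain ⟨M, mc, ms⟩ : ∃ M : ℕ → ℕ, Computable M ∧ ∀ n (p s : List Bool), p.length ≤ n + c0 + c1 →
      s.length ≤ n → ∃ m < M n, dec m.unpair.1 = p ∧ dec m.unpair.2 = s := by
    have := pow_c.comp (ad (ad Computable.id (Computable.const c0)) (Computable.const c1))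
    refine ⟨_, ml (ml this this) (ml this this), fun n p s a b => ?_⟩
    obtain ⟨i, i1, i2⟩ := dec_sur a
    obtain ⟨j, j1, j2⟩ := dec_sur (N := n + c0 + c1) (b.trans (by omega))
    exact ⟨_, pair_lt i1 j1, by simp [i2, j2]⟩
  have d1 := dec_c.comp u1
  have d2 := dec_c.comp u2
  have r : Computable fun z : ℕ × ℕ × ℕ =>
      ((dec z.2.2.unpair.1, lab (Nat.pair z.1 z.2.1)), dec z.2.2.unpair.2) :=
    ((d1.comp (s.comp s)).pair (lc.comp (Primrec₂.natPair.to_comp.comp f (f.comp s)))).pair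
      (d2.comp (s.comp s))
  obtain ⟨A, B, a, b, e⟩ := sim ((graph hU.1).comp r) (g.comp (d1.pair d2))
  choose x eA eB using e fun n => (X n).toNat
  simp only [eG] at eA
  have l : Computable fun z : ((List Bool × List Bool) × List Bool) × ℕ => z.1.1.2.length :=
    Computable.list_length.comp (s.comp (f.comp f))
  have w : Sig 1 _ fun z : ((List Bool × List Bool) × List Bool) × ℕ =>
      (dec z.2.unpair.1 = z.1.1.1 ∧ dec z.2.unpair.2 = z.1.2) ∧
        A (z.1.1.2.length.unpair.1, z.1.1.2.length.unpair.2, z.2) :=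
    (CeAlg.cs (cand (ceq (d1.comp s) (f.comp (f.comp f))) (ceq (d2.comp s) (s.comp f)))).and
      (a.comp ((u1.comp l).pair ((u2.comp l).pair s)))
  obtain ⟨W, w0, w1, w2⟩ := unif w.ex
  obtain ⟨c2, h2⟩ := hU.2 (fun p y => W (p, y)) w0
  have L : Computable fun z : (List Bool × List Bool) × ℕ × ℕ × ℕ => z.2.1 := f.comp s
  have N : Computable fun z : (List Bool × List Bool) × ℕ × ℕ × ℕ => z.2.2.1 := f.comp (s.comp s)
  have m : Computable fun z : (List Bool × List Bool) × ℕ × ℕ × ℕ => z.2.2.2 := s.comp (s.comp s)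
  have v : Op fun Y (z : (List Bool × List Bool) × ℕ × ℕ × ℕ) => (z.2.2.1 < 2 ^ z.2.1 ∧
      z.1.1 = tag z.2.1 (pr z.2.2.1.testBit z.2.1 ++ dec z.2.2.2.unpair.1) ∧
        z.1.2 = dec z.2.2.2.unpair.2) ∧ B Y (M z.2.2.1, z.2.2.2) :=
    (Op.cp (cand (clt N (pow_c.comp L)) (cand (ceq (f.comp f) (tag_c L (Computable.list_append.comp
      (bits_c N L) (d1.comp m)))) (ceq (s.comp f) (d2.comp m))))).and (b.comp ((mc.comp N).pair m))
  obtain ⟨V, v0, v1⟩ := rec_of_op' (X := fun n => (X n).toNat) v.exd (by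
    rintro _ _ _ ⟨⟨L, n, m⟩, ⟨p1, p3, p4⟩, p2⟩ ⟨⟨L', n', m'⟩, ⟨q1, q, q4⟩, q2⟩
    dsimp only at *
    subst p3 p4 q4
    obtain ⟨rfl, q⟩ := tag_inj q
    obtain ⟨q, q'⟩ := List.append_inj q (by simp)
    obtain rfl := bits_inj p1 q1 q
    exact Part.mem_unique (q' ▸ ((eB _ _).1 p2).2) ((eB _ _).1 q2).2)
  obtain ⟨c3, h3⟩ := hO.2 V v0
  refine ⟨c2 + c3 + 3, fun n => lab (Nat.pair (M n) (x (M n))), fun n hn t ht => ?_⟩
  obtain ⟨p, p1, p2⟩ := cx_spec (W := O) (fun t => (h0 t t (by simp)).imp fun _ k => k.2) t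
  obtain ⟨q, q1, q2⟩ := cx_spec (W := fun p => U p (lab (Nat.pair (M n) (x (M n)))))
    (fun t => (h1 t _ t (by simp)).imp fun _ k => k.2) t
  obtain ⟨p', p3, p4⟩ := h0 t t (by simp)
  obtain ⟨q', q3, q4⟩ := h1 t (lab (Nat.pair (M n) (x (M n)))) t (by simp)
  have p4 := cx_le p4
  have q4 := cx_le (W := fun p => U p _) q4
  obtain ⟨i, i1, rfl, rfl⟩ := ms n p t (by omega) ht
  obtain ⟨j, j1, rfl, j2⟩ := ms n q _ (by omega) ht
  obtain ⟨y, y1⟩ := w2 (dec i.unpair.1, lab (Nat.pair (M n) (x (M n)))) (dec i.unpair.2)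
    ⟨i, ⟨rfl, rfl⟩, by
    simpa [ll] using (eA _ i).2 ⟨i1, p2⟩⟩
  obtain ⟨k, ⟨k1, k3⟩, k2⟩ := w1 _ _ y1
  simp only [ll, Nat.unpair_pair, eA] at k1 k2 k3
  rw [k1, k3] at k2
  rw [Part.mem_unique k2.2 p2] at y1
  obtain ⟨y, y2, y3⟩ := h2 _ _ _ y1
  have y3 := cx_le (W := fun p => U p _) y3
  obtain ⟨z, z2, z3⟩ := h3 _ _ (v1 (tag (Nat.log 2 n + 1)
    (pr n.testBit (Nat.log 2 n + 1) ++ dec j.unpair.1)) (dec i.unpair.2) ⟨(Nat.log 2 n + 1, n, j),
    ⟨Nat.lt_pow_succ_log_self (by omega) n, rfl, j2.symm⟩, (eB _ j).2 ⟨j1, j2 ▸ q2⟩⟩)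
  have z3 := cx_le z3
  simp only [tag_len, List.length_append, pr_len] at z2
  have o := Real.natLog_le_logb n 2
  have o' : (0 : ℝ) ≤ Nat.log 2 n := by positivity
  change |(cx _ _ : ℝ) - cx _ _| ≤ _
  generalize cx (fun p => U p _) _ = I, cx O _ = J at *
  have e1 : (I : ℝ) ≤ J + c2 := by exact_mod_cast (by omega)
  have e2 : (J : ℝ) ≤ I + 2 * Nat.log 2 n + 3 + c3 := by exact_mod_cast (by omega)
  push_cast at o ⊢
  rw [abs_le]
  constructor <;> nlinarith [c2.cast_nonneg (α := ℝ), c3.cast_nonneg (α := ℝ)]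

end Pool.Agent.Results.MP_d04dff_lc.Yes
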